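import Mathlib

/-!
# Non-tridiagonal irreducible modules of the tridiagonal algebra with unequal eigenspaces

For `β = -1` the tridiagonal relations say that `A ^ 3 - γ A ^ 2 - ϱ A` commutes with `A*` and that
`A* ^ 3 - γ* A* ^ 2 - ϱ* A*` commutes with `A`.  So on `K ^ 3` the diagonal matrix with distinct
entries `a, b, c` and the idempotent of rank one `v w ^ T`, `v = (1, 1, 1)`, `w = (1, 1, -1)`, give
a module of the tridiagonal algebra; it is irreducible, and not a tridiagonal pair, since every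
entry of the second matrix is non-zero.
-/

set_option autoImplicit false

namespace Pool.Agent.Results.MP_2c723a_al.UnequalEigenspaces

open Module

/-- The defining relations of the tridiagonal algebra, in the free algebra on `A = ι 0`,
`A* = ι 1`. -/
inductive Rel {K : Type} [Field K] (β γ γs ϱ ϱs : K) :
    FreeAlgebra K (Fin 2) → FreeAlgebra K (Fin 2) → Prop
  | first (A As X : FreeAlgebra K (Fin 2)) (hA : A = FreeAlgebra.ι K 0) (hAs : As = FreeAlgebra.ι K 1)
      (hX : X = A ^ 2 * As - β • (A * As * A) + As * A ^ 2 - γ • (A * As + As * A) - ϱ • As) :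
      Rel β γ γs ϱ ϱs (A * X - X * A) 0
  | second (A As X : FreeAlgebra K (Fin 2)) (hA : A = FreeAlgebra.ι K 0)
      (hAs : As = FreeAlgebra.ι K 1)
      (hX : X = As ^ 2 * A - β • (As * A * As) + A * As ^ 2 - γs • (As * A + A * As) - ϱs • A) :
      Rel β γ γs ϱ ϱs (As * X - X * As) 0

/-- The tridiagonal algebra `T(β, γ, γ*, ϱ, ϱ*)`. -/
abbrev TAlg {K : Type} [Field K] (β γ γs ϱ ϱs : K) : Type := RingQuot (Rel β γ γs ϱ ϱs)

/-- The generator `A` (`i = 0`) or `A*` (`i = 1`) of the tridiagonal algebra. -/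
noncomputable def gen {K : Type} [Field K] (β γ γs ϱ ϱs : K) (i : Fin 2) : TAlg β γ γs ϱ ϱs :=
  RingQuot.mkAlgHom K (Rel β γ γs ϱ ϱs) (FreeAlgebra.ι K i)

/-- The linear map by which an element of a `K`-algebra acts on a module. -/
def act {K : Type} [Field K] {T : Type} [Ring T] [Algebra K T] (V : Type) [AddCommGroup V]
    [Module K V] [Module T V] [IsScalarTower K T V] (t : T) : V →ₗ[K] V :=
  Algebra.lsmul K K V t

/-- A linear map is diagonalizable: its eigenspaces span the space. -/
def Diag {K V : Type} [Field K] [AddCommGroup V] [Module K V] (A : V →ₗ[K] V) : Prop :=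
  ⨆ μ : K, End.eigenspace A μ = ⊤

/-- The eigenspaces of `A` can be ordered as `V_0, …, V_d` in such a way that `B` maps `V_i` into
`V_{i-1} + V_i + V_{i+1}` for all `i`, where `V_{-1} = V_{d+1} = 0`. -/
def Tridiag {K V : Type} [Field K] [AddCommGroup V] [Module K V] (A B : V →ₗ[K] V) : Prop :=
  ∃ (d : ℕ) (θ : Fin (d + 1) → K), Function.Injective θ ∧
    (∀ μ : K, End.HasEigenvalue A μ ↔ ∃ i, θ i = μ) ∧
    ∀ i, ∀ v ∈ End.eigenspace A (θ i),
      B v ∈ ⨆ (j : Fin (d + 1)) (_ : (j : ℕ) ≤ i + 1 ∧ (i : ℕ) ≤ j + 1), End.eigenspace A (θ j)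

/-- The pair `A, A*` is a tridiagonal pair on `V`. -/
def IsTridiagonalPair {K V : Type} [Field K] [AddCommGroup V] [Module K V]
    (A As : V →ₗ[K] V) : Prop :=
  (Diag A ∧ Diag As) ∧ Tridiag A As ∧ Tridiag As A ∧
    ∀ W : Submodule K V, (∀ w ∈ W, A w ∈ W) → (∀ w ∈ W, As w ∈ W) → W = ⊥ ∨ W = ⊤

section

variable {K : Type} [Field K]

/-- the diagonal matrix -/
def MA (a b c : K) : Matrix (Fin 3) (Fin 3) K := !![a, 0, 0; 0, b, 0; 0, 0, c]

/-- the idempotent of rank one -/
def MB : Matrix (Fin 3) (Fin 3) K := !![1, 1, -1; 1, 1, -1; 1, 1, -1]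

theorem MA_mulVec (a b c : K) (v : Fin 3 → K) : (MA a b c).mulVec v = ![a * v 0, b * v 1, c * v 2] := by
  ext i
  fin_cases i <;> simp [MA, Matrix.mulVec, dotProduct, Fin.sum_univ_three]

theorem MB_mulVec (v : Fin 3 → K) :
    (MB : Matrix (Fin 3) (Fin 3) K).mulVec v = ![v 0 + v 1 - v 2, v 0 + v 1 - v 2, v 0 + v 1 - v 2] := by
  ext i
  fin_cases i <;> simp [MB, Matrix.mulVec, dotProduct, Fin.sum_univ_three] <;> ring

theorem rel_first (a b c : K) (γ ϱ : K) (hγ : γ = a + b + c) (hϱ : ϱ = -(a * b + a * c + b * c)) :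
    let A := MA a b c
    let X := A ^ 2 * MB - (-1 : K) • (A * MB * A) + MB * A ^ 2 - γ • (A * MB + MB * A) - ϱ • MB
    A * X - X * A = 0 := by
  subst hγ hϱ
  intro A X
  simp only [A, X, MA, MB]
  ext i j
  fin_cases i <;> fin_cases j <;>
    simp [pow_two] <;> ring

theorem rel_second (a b c : K) :
    let A := MA a b c
    let X := MB ^ 2 * A - (-1 : K) • (MB * A * MB) + A * MB ^ 2 - (1 : K) • (MB * A + A * MB) - (0 : K) • A
    MB * X - X * MB = 0 := by
  intro A X
  simp only [A, X, MA, MB]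
  ext i j
  fin_cases i <;> fin_cases j <;>
    simp [pow_two] <;> ring

variable (a b c : K)

/-- the representation of the tridiagonal algebra by matrices -/
noncomputable def rep : TAlg (-1 : K) (a + b + c) 1 (-(a * b + a * c + b * c)) 0 →ₐ[K]
    ((Fin 3 → K) →ₗ[K] (Fin 3 → K)) :=
  (Matrix.toLinAlgEquiv' : Matrix (Fin 3) (Fin 3) K ≃ₐ[K] _).toAlgHom.comp
    (RingQuot.liftAlgHom K ⟨FreeAlgebra.lift K ![MA a b c, MB], by
      intro x y h
      cases h with
      | first A As X hA hAs hX =>
        subst hX hA hAs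
        have h1 := rel_first a b c _ _ rfl rfl
        simpa using h1
      | second A As X hA hAs hX =>
        subst hX hA hAs
        have h1 := rel_second a b c
        simpa using h1⟩)

theorem rep_gen (i : Fin 2) : rep a b c (gen _ _ _ _ _ i) = Matrix.toLin' (![MA a b c, MB] i) := by
  unfold rep gen
  rw [AlgHom.comp_apply, RingQuot.liftAlgHom_mkAlgHom_apply]
  simp
  rfl

/-- the module over the tridiagonal algebra -/
@[reducible] noncomputable def modT :
    Module (TAlg (-1 : K) (a + b + c) 1 (-(a * b + a * c + b * c)) 0) (Fin 3 → K) :=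
  Module.compHom (Fin 3 → K) (rep a b c).toRingHom

theorem act_gen (i : Fin 2) :
    letI := modT a b c
    ∃ (_ : IsScalarTower K (TAlg (-1 : K) (a + b + c) 1 (-(a * b + a * c + b * c)) 0) (Fin 3 → K)),
      act (Fin 3 → K) (gen (-1 : K) (a + b + c) 1 (-(a * b + a * c + b * c)) 0 i) =
        Matrix.toLin' (![MA a b c, MB] i) := by
  let _ := modT a b c
  have h1 : IsScalarTower K (TAlg (-1 : K) (a + b + c) 1 (-(a * b + a * c + b * c)) 0)
      (Fin 3 → K) := by
    constructor
    intro k t v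
    change rep a b c (k • t) v = k • (rep a b c t) v
    rw [map_smul]
    rfl
  refine ⟨h1, ?_⟩
  rw [← rep_gen]
  rfl

theorem invariant (hab : a ≠ b) (hac : a ≠ c) (hbc : b ≠ c) (W : Submodule K (Fin 3 → K))
    (hA : ∀ w ∈ W, Matrix.toLin' (MA a b c) w ∈ W)
    (hB : ∀ w ∈ W, Matrix.toLin' (MB : Matrix (Fin 3) (Fin 3) K) w ∈ W) : W = ⊥ ∨ W = ⊤ := by
  by_cases hW : W = ⊥
  · exact Or.inl hW
  right
  obtain ⟨v, hv, hv0⟩ := (Submodule.ne_bot_iff W).1 hW
  -- the spectral projections
  have key : ∀ w ∈ W, ∀ i : Fin 3, (Pi.single i (w i) : Fin 3 → K) ∈ W := by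
    intro w hw i
    have h1 := hA w hw
    have h2 := hA _ h1
    rw [Matrix.toLin'_apply, MA_mulVec] at h1 h2
    rw [Matrix.toLin'_apply, MA_mulVec] at h2
    have hd1 : (a - b) * (a - c) ≠ 0 := mul_ne_zero (sub_ne_zero.2 hab) (sub_ne_zero.2 hac)
    have hd2 : (b - a) * (b - c) ≠ 0 := mul_ne_zero (sub_ne_zero.2 hab.symm) (sub_ne_zero.2 hbc)
    have hd3 : (c - a) * (c - b) ≠ 0 :=
      mul_ne_zero (sub_ne_zero.2 hac.symm) (sub_ne_zero.2 hbc.symm)
    have hab' := sub_ne_zero.2 hab
    have hac' := sub_ne_zero.2 hac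
    have hbc' := sub_ne_zero.2 hbc
    have hba' := sub_ne_zero.2 hab.symm
    have hca' := sub_ne_zero.2 hac.symm
    have hcb' := sub_ne_zero.2 hbc.symm
    have e1 : ∀ p q r : K, (p - q) * (p - r) ≠ 0 → ∀ x : K,
        x = ((p - q) * (p - r))⁻¹ * (p * (p * x) - (q + r) * (p * x) + q * r * x) := by
      intro p q r h x
      rw [eq_inv_mul_iff_mul_eq₀ h]
      ring
    have e2 : ∀ p q r x y : K, 0 = y * (q * (q * x) - (q + r) * (q * x) + q * r * x) := by
      intro p q r x y
      ring
    have e3 : ∀ p q r x y : K, 0 = y * (r * (r * x) - (q + r) * (r * x) + q * r * x) := by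
      intro p q r x y
      ring
    fin_cases i
    · have h3 := W.smul_mem (((a - b) * (a - c))⁻¹)
        (W.add_mem (W.sub_mem h2 (W.smul_mem (b + c) h1)) (W.smul_mem (b * c) hw))
      convert h3 using 1
      ext j
      fin_cases j
      · exact e1 a b c hd1 (w 0)
      · exact e2 a b c (w 1) _
      · exact e3 a b c (w 2) _
    · have h3 := W.smul_mem (((b - a) * (b - c))⁻¹)
        (W.add_mem (W.sub_mem h2 (W.smul_mem (a + c) h1)) (W.smul_mem (a * c) hw))
      convert h3 using 1
      ext j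
      fin_cases j
      · exact e2 b a c (w 0) _
      · exact e1 b a c hd2 (w 1)
      · exact e3 b a c (w 2) _
    · have h3 := W.smul_mem (((c - a) * (c - b))⁻¹)
        (W.add_mem (W.sub_mem h2 (W.smul_mem (a + b) h1)) (W.smul_mem (a * b) hw))
      convert h3 using 1
      ext j
      fin_cases j
      · exact e2 c a b (w 0) _
      · exact e3 c a b (w 1) _
      · exact e1 c a b hd3 (w 2)
  have hone : (fun _ => 1 : Fin 3 → K) ∈ W := by
    obtain ⟨i, hi⟩ : ∃ i, v i ≠ 0 := by
      by_contra h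
      push Not at h
      exact hv0 (funext h)
    have h1 := hB _ (W.smul_mem (v i)⁻¹ (key v hv i))
    rw [Matrix.toLin'_apply, MB_mulVec] at h1
    fin_cases i
    · convert h1 using 1
      ext j
      fin_cases j <;> simp at hi ⊢ <;> simp [hi]
    · convert h1 using 1
      ext j
      fin_cases j <;> simp at hi ⊢ <;> simp [hi]
    · rw [← W.neg_mem_iff] at h1
      convert h1 using 1
      ext j
      fin_cases j <;> simp at hi ⊢ <;> simp [hi]
  rw [eq_top_iff]
  intro w _
  have h2 : w = ∑ i, w i • (Pi.single i (1 : K) : Fin 3 → K) := by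
    ext j
    simp [Finset.sum_apply, Pi.single_apply]
  rw [h2]
  exact W.sum_mem fun i _ => W.smul_mem _ (key _ hone i)

theorem diag_A : Diag (Matrix.toLin' (MA a b c)) := by
  unfold Diag
  rw [eq_top_iff]
  intro w _
  have h2 : w = ∑ i, w i • (Pi.single i (1 : K) : Fin 3 → K) := by
    ext j
    simp [Finset.sum_apply, Pi.single_apply]
  rw [h2]
  refine Submodule.sum_mem _ fun i _ => Submodule.smul_mem _ _ ?_
  refine Submodule.mem_iSup_of_mem (![a, b, c] i) ?_
  rw [End.mem_eigenspace_iff, Matrix.toLin'_apply, MA_mulVec]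
  ext j
  fin_cases i <;> fin_cases j <;> simp

theorem diag_B : Diag (Matrix.toLin' (MB : Matrix (Fin 3) (Fin 3) K)) := by
  unfold Diag
  rw [eq_top_iff]
  intro w _
  have h2 : w = Matrix.toLin' (MB : Matrix (Fin 3) (Fin 3) K) w +
      (w - Matrix.toLin' (MB : Matrix (Fin 3) (Fin 3) K) w) := by abel
  rw [h2]
  refine Submodule.add_mem _ ?_ ?_
  · refine Submodule.mem_iSup_of_mem 1 ?_
    rw [End.mem_eigenspace_iff]
    simp only [Matrix.toLin'_apply, MB_mulVec]
    ext j
    fin_cases j <;> simp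
  · refine Submodule.mem_iSup_of_mem 0 ?_
    rw [End.mem_eigenspace_iff]
    simp only [Matrix.toLin'_apply, MB_mulVec]
    ext j
    fin_cases j <;> simp <;> ring

theorem finrank_A (hab : a ≠ b) (hac : a ≠ c) :
    Module.finrank K (End.eigenspace (Matrix.toLin' (MA a b c)) a) = 1 := by
  have h : End.eigenspace (Matrix.toLin' (MA a b c)) a =
      Submodule.span K {(Pi.single 0 1 : Fin 3 → K)} := by
    ext v
    rw [End.mem_eigenspace_iff, Submodule.mem_span_singleton, Matrix.toLin'_apply, MA_mulVec]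
    constructor
    · intro h
      refine ⟨v 0, ?_⟩
      have h1 := congrFun h 1
      have h2 := congrFun h 2
      simp at h1 h2
      ext j
      fin_cases j
      · simp
      · simp
        rcases h1 with h1 | h1
        · exact absurd h1.symm hab
        · exact h1.symm
      · simp
        rcases h2 with h2 | h2
        · exact absurd h2.symm hac
        · exact h2.symm
    · rintro ⟨k, rfl⟩
      ext j
      fin_cases j <;> simp
  rw [h, finrank_span_singleton]
  intro h0
  have := congrFun h0 0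
  simp at this

theorem finrank_B :
    Module.finrank K (End.eigenspace (Matrix.toLin' (MB : Matrix (Fin 3) (Fin 3) K)) 0) = 2 := by
  let φ : (Fin 3 → K) →ₗ[K] K :=
    (LinearMap.proj 0 : (Fin 3 → K) →ₗ[K] K) + (LinearMap.proj 1 : (Fin 3 → K) →ₗ[K] K) -
      (LinearMap.proj 2 : (Fin 3 → K) →ₗ[K] K)
  have h : End.eigenspace (Matrix.toLin' (MB : Matrix (Fin 3) (Fin 3) K)) 0 = LinearMap.ker φ := by
    ext v
    rw [End.mem_eigenspace_iff, LinearMap.mem_ker, Matrix.toLin'_apply, MB_mulVec]
    constructor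
    · intro h
      have h1 := congrFun h 0
      simpa [φ] using h1
    · intro h
      have h' : v 0 + v 1 - v 2 = 0 := by simpa [φ] using h
      ext j
      fin_cases j <;> simp [h']
  have hs : LinearMap.range φ = ⊤ := by
    rw [LinearMap.range_eq_top]
    intro k
    exact ⟨Pi.single 0 k, by simp [φ]⟩
  have h1 := LinearMap.finrank_range_add_finrank_ker φ
  rw [hs, finrank_top, Module.finrank_self, Module.finrank_fin_fun] at h1
  rw [h]
  omega

theorem not_tridiag (hab : a ≠ b) (hac : a ≠ c) (hbc : b ≠ c) :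
    ¬ Tridiag (Matrix.toLin' (MA a b c)) (Matrix.toLin' (MB : Matrix (Fin 3) (Fin 3) K)) := by
  rintro ⟨d, θ, hθ, he, h⟩
  have hinj : Function.Injective ![a, b, c] := by
    intro i j hij
    fin_cases i <;> fin_cases j <;> simp_all
  have hval : ∀ i : Fin 3, ∃ j, θ j = ![a, b, c] i := by
    intro i
    rw [← he]
    refine End.hasEigenvalue_of_hasEigenvector (x := Pi.single i 1) ⟨?_, ?_⟩
    · rw [End.mem_eigenspace_iff, Matrix.toLin'_apply, MA_mulVec]
      ext j
      fin_cases i <;> fin_cases j <;> simp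
    · intro h0
      have := congrFun h0 i
      simp at this
  choose σ hσ using hval
  have hσi : Function.Injective σ := by
    intro i j hij
    apply hinj
    rw [← hσ, ← hσ, hij]
  -- two of the eigenvalues are not adjacent in the ordering
  obtain ⟨i, j, hij⟩ : ∃ i j : Fin 3, ¬ ((σ j : ℕ) ≤ σ i + 1 ∧ (σ i : ℕ) ≤ σ j + 1) := by
    by_contra hcon
    push Not at hcon
    have h01 : (σ 0 : ℕ) ≠ σ 1 := fun h => absurd (hσi (Fin.ext h)) (by decide)
    have h02 : (σ 0 : ℕ) ≠ σ 2 := fun h => absurd (hσi (Fin.ext h)) (by decide)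
    have h12 : (σ 1 : ℕ) ≠ σ 2 := fun h => absurd (hσi (Fin.ext h)) (by decide)
    have a1 := hcon 0 1
    have a2 := hcon 0 2
    have a3 := hcon 1 2
    omega
  have hv : (Pi.single i 1 : Fin 3 → K) ∈ End.eigenspace (Matrix.toLin' (MA a b c)) (θ (σ i)) := by
    rw [hσ, End.mem_eigenspace_iff, Matrix.toLin'_apply, MA_mulVec]
    ext j
    fin_cases i <;> fin_cases j <;> simp
  have h1 := h (σ i) _ hv
  have h2 : (⨆ (j : Fin (d + 1)) (_ : (j : ℕ) ≤ σ i + 1 ∧ (σ i : ℕ) ≤ j + 1),
      End.eigenspace (Matrix.toLin' (MA a b c)) (θ j)) ≤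
      LinearMap.ker (LinearMap.proj j : (Fin 3 → K) →ₗ[K] K) := by
    refine iSup_le fun l => iSup_le fun hl => ?_
    intro v hv
    rw [End.mem_eigenspace_iff, Matrix.toLin'_apply, MA_mulVec] at hv
    rw [LinearMap.mem_ker, LinearMap.proj_apply]
    have hne : θ l ≠ ![a, b, c] j := by
      intro heq
      rw [← hσ] at heq
      have := hθ heq
      subst this
      exact hij hl
    have h3 := congrFun hv j
    by_contra h0
    apply hne
    fin_cases j
    · simp at h3 h0 ⊢
      rcases h3 with h3 | h3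
      · exact h3.symm
      · exact absurd h3 h0
    · simp at h3 h0 ⊢
      rcases h3 with h3 | h3
      · exact h3.symm
      · exact absurd h3 h0
    · simp at h3 h0 ⊢
      rcases h3 with h3 | h3
      · exact h3.symm
      · exact absurd h3 h0
  have h3 := h2 h1
  rw [LinearMap.mem_ker, LinearMap.proj_apply, Matrix.toLin'_apply, MB_mulVec] at h3
  fin_cases i <;> fin_cases j <;> simp at h3

end

/-- For every field `K` with at least three elements there are parameters and a finite-dimensional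
irreducible module `V` over the tridiagonal algebra on which `A` and `A*` are diagonalizable but
do not act as a tridiagonal pair, such that some eigenspace of `A` has dimension `1` and some
eigenspace of `A*` has dimension `2`. -/
theorem result (K : Type) [Field K] (hK : ∃ a b c : K, a ≠ b ∧ a ≠ c ∧ b ≠ c) :
    ∃ (β γ γs ϱ ϱs : K) (V : Type) (_ : AddCommGroup V) (_ : Module K V)
      (_ : Module (TAlg β γ γs ϱ ϱs) V) (_ : IsScalarTower K (TAlg β γ γs ϱ ϱs) V)
      (A As : V →ₗ[K] V), A = act V (gen β γ γs ϱ ϱs 0) ∧ As = act V (gen β γ γs ϱ ϱs 1) ∧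
      FiniteDimensional K V ∧ IsSimpleModule (TAlg β γ γs ϱ ϱs) V ∧
      Diag A ∧ Diag As ∧ ¬ IsTridiagonalPair A As ∧
      ∃ μ ν : K, Module.finrank K (End.eigenspace A μ) = 1 ∧
        Module.finrank K (End.eigenspace As ν) = 2 := by
  obtain ⟨a, b, c, hab, hac, hbc⟩ := hK
  let _ := modT a b c
  obtain ⟨i1, h0⟩ := act_gen a b c 0
  obtain ⟨_, h1⟩ := act_gen a b c 1
  have h0' : act (Fin 3 → K) (gen (-1 : K) (a + b + c) 1 (-(a * b + a * c + b * c)) 0 0) =
        Matrix.toLin' (MA a b c) := h0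
  have h1' : act (Fin 3 → K) (gen (-1 : K) (a + b + c) 1 (-(a * b + a * c + b * c)) 0 1) =
        Matrix.toLin' MB := h1
  refine ⟨-1, a + b + c, 1, -(a * b + a * c + b * c), 0, Fin 3 → K, inferInstance, inferInstance,
    modT a b c, i1, Matrix.toLin' (MA a b c), Matrix.toLin' MB, h0'.symm, h1'.symm,
    inferInstance, ?_, diag_A a b c, diag_B, fun h => not_tridiag a b c hab hac hbc h.2.1,
    a, 0, finrank_A a b c hab hac, finrank_B⟩
  rw [isSimpleModule_iff]
  refine { exists_pair_ne := ⟨⊥, ⊤, bot_ne_top⟩, eq_bot_or_eq_top := fun N => ?_ }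
  rcases invariant a b c hab hac hbc (N.restrictScalars K)
    (fun w hw => by rw [← h0']; exact N.smul_mem _ hw)
    (fun w hw => by rw [← h1']; exact N.smul_mem _ hw) with h | h
  · left
    exact (Submodule.restrictScalars_eq_bot_iff _ _ _).1 h
  · right
    exact (Submodule.restrictScalars_eq_top_iff _ _ _).1 h

end Pool.Agent.Results.MP_2c723a_al.UnequalEigenspaces
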